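import Pool.Agent.Lib.MP_30c8ab_lc.Main

namespace Pool.Agent.Results.MP_30c8ab_lc.SmallRank

theorem result {Q A : Type} [Fintype Q] [DecidableEq Q] (δ : Q → A → Q)
    (hsync : ∃ s : List A, (Finset.univ.image fun q => s.foldl δ q).card = 1)
    (w : List A) (hw : w ≠ []) (r : ℕ)
    (hr : (Finset.univ.image fun q => w.foldl δ q).card = r) :
    ∃ z : List A, (Finset.univ.image fun q => z.foldl δ q).card = 1 ∧
      z.length ≤ w.length + (r - 1) * (w.length * r.choose 2 + 2 * Fintype.card Q * r) := by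
  obtain ⟨s, hs⟩ := hsync
  subst hr
  exact Pool.Agent.Lib.SmallRank.main δ w (s := s) hs hw

end Pool.Agent.Results.MP_30c8ab_lc.SmallRank
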